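import Pool.Agent.K3h17.Stm
import Pool.Agent.Y241.WR.Grp

/-!
# Brick G: labelled 2-transitive subgroups of `G ≀ S_n` with an element of small support
-/

set_option autoImplicit false
set_option linter.unusedSimpArgs false
set_option linter.unusedSectionVars false

namespace Pool.Agent.K3h71.IG

open Pool.Agent.H391R2 Equiv

open scoped commutatorElement

variable {G : Type} [Group G] {n : ℕ}

theorem right_inv_apply (a : Wr G n) (i : Fin n) : (a⁻¹).right i = a.right⁻¹ i := by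
  rw [SemidirectProduct.inv_right]

theorem ai {α : Type} (σ : Perm α) (i : α) : σ (σ⁻¹ i) = i := by simp

theorem ia {α : Type} (σ : Perm α) (i : α) : σ⁻¹ (σ i) = i := by simp

/-- The fibre over `i` is fixed by `a`. -/
def Fx (a : Wr G n) (i : Fin n) : Prop := a.right i = i ∧ a.left i = 1

theorem Fx.inv_right {a : Wr G n} {i : Fin n} (h : Fx a i) : a.right⁻¹ i = i := by
  rw [Perm.inv_eq_iff_eq, h.1]

theorem not_fx_right {a : Wr G n} {i : Fin n} (h : ¬ Fx a i) : ¬ Fx a (a.right i) := by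
  intro h1
  have : a.right i = i := a.right.injective h1.1
  rw [this] at h1
  exact h h1

theorem not_fx_inv {a : Wr G n} {i : Fin n} (h : ¬ Fx a i) : ¬ Fx a (a.right⁻¹ i) := by
  intro h1
  have h2 : a.right⁻¹ i = i := by
    have := h1.1
    rw [ai] at this
    exact this.symm
  rw [h2] at h1
  exact h h1

/-- `c` is a labelled three-cycle `k → l → r → k` with trivial product of labels. -/
structure IsT (c : Wr G n) (k l r : Fin n) : Prop where
  hk : c.right k = l
  hl : c.right l = r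
  hr : c.right r = k
  hfix : ∀ i, i ≠ k → i ≠ l → i ≠ r → Fx c i
  hprod : c.left k * c.left r * c.left l = 1

theorem comm_left (x y : Wr G n) (i : Fin n) : (x * y * x⁻¹ * y⁻¹).left i =
    x.left i * y.left (x.right⁻¹ i) * (x.left (x.right (y.right⁻¹ (x.right⁻¹ i))))⁻¹ *
      (y.left (y.right (x.right (y.right⁻¹ (x.right⁻¹ i)))))⁻¹ := by
  rw [wr_mul_left, wr_mul_left, wr_mul_left, wr_inv_left, wr_inv_left]
  simp [wr_mul_right, SemidirectProduct.inv_right, mul_inv_rev, Perm.mul_apply]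

theorem comm_right (x y : Wr G n) (i : Fin n) : (x * y * x⁻¹ * y⁻¹).right i =
    x.right (y.right (x.right⁻¹ (y.right⁻¹ i))) := by
  simp [wr_mul_right, SemidirectProduct.inv_right, Perm.mul_apply]

theorem isT_comm {x y : Wr G n} {j : Fin n} (hx : x.right j ≠ j) (hy : y.right j ≠ j)
    (h : ∀ i, ¬ Fx x i → ¬ Fx y i → i = j) :
    IsT (x * y * x⁻¹ * y⁻¹) (y.right j) j (x.right j) := by
  have hxj : ¬ Fx x j := fun h1 => hx h1.1
  have hyj : ¬ Fx y j := fun h1 => hy h1.1
  -- points moved by `x` only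
  have a1 : Fx y (x.right j) := by
    by_contra hcon
    exact hx (h _ (not_fx_right hxj) hcon)
  have a2 : Fx y (x.right⁻¹ j) := by
    by_contra hcon
    have := h _ (not_fx_inv hxj) hcon
    rw [Perm.inv_eq_iff_eq] at this
    exact hx this.symm
  have b1 : Fx x (y.right j) := by
    by_contra hcon
    exact hy (h _ hcon (not_fx_right hyj))
  have b2 : Fx x (y.right⁻¹ j) := by
    by_contra hcon
    have := h _ hcon (not_fx_inv hyj)
    rw [Perm.inv_eq_iff_eq] at this
    exact hy this.symm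
  have e1 : x.right⁻¹ (y.right j) = y.right j := b1.inv_right
  have e2 : y.right⁻¹ (x.right j) = x.right j := a1.inv_right
  have e3 : y.right⁻¹ (x.right⁻¹ j) = x.right⁻¹ j := a2.inv_right
  have e4 : x.right⁻¹ (y.right⁻¹ j) = y.right⁻¹ j := b2.inv_right
  refine ⟨?_, ?_, ?_, ?_, ?_⟩
  · rw [comm_right, ia, a2.1, ai]
  · rw [comm_right, e4, ai]
  · rw [comm_right, e2, ia, b1.1]
  · intro i h1 h2 h3
    by_cases hix : Fx x i
    · by_cases hiy : Fx y i
      · refine ⟨?_, ?_⟩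
        · rw [comm_right, hiy.inv_right, hix.inv_right, hiy.1, hix.1]
        · rw [comm_left, hix.inv_right, hiy.inv_right, hix.1, hiy.1, hix.2, hiy.2]
          simp
      · have h4 : Fx x (y.right⁻¹ i) := by
          by_contra hcon
          have := h _ hcon (not_fx_inv hiy)
          rw [Perm.inv_eq_iff_eq] at this
          exact h1 this
        refine ⟨?_, ?_⟩
        · rw [comm_right, h4.inv_right, ai, hix.1]
        · rw [comm_left, hix.inv_right, h4.1, ai, hix.2, h4.2]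
          simp
    · have hiy : Fx y i := by
        by_contra hcon
        exact h2 (h _ hix hcon)
      have h4 : Fx y (x.right⁻¹ i) := by
        by_contra hcon
        have := h _ (not_fx_inv hix) hcon
        rw [Perm.inv_eq_iff_eq] at this
        exact h3 this
      refine ⟨?_, ?_⟩
      · rw [comm_right, hiy.inv_right, h4.1, ai]
      · rw [comm_left, h4.inv_right, ai, hiy.1, hiy.2, h4.2]
        simp
  · rw [comm_left, comm_left, comm_left, e1, e3]
    simp only [ai, ia, e2, e3, e4, a1.1, a1.2, a2.1, a2.2, b1.1, b1.2, b2.1, b2.2]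
    group

/-! ### Counting -/

section count

variable {α : Type} [Fintype α] [DecidableEq α]

/-- A double count: for a transitive family of permutations. -/
theorem count_one (F : Finset (Perm α)) (T : ℕ)
    (hT : ∀ k i : α, (F.filter fun g => g k = i).card = T) (Q : Finset α) :
    ∑ g ∈ F, (Q.filter fun k => g k ∈ Q).card = Q.card * Q.card * T := by
  classical
  have h1 : ∀ g ∈ F, (Q.filter fun k => g k ∈ Q).card =
      ∑ k ∈ Q, ∑ i ∈ Q, if g k = i then 1 else 0 := by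
    intro g _
    rw [Finset.card_filter]
    refine Finset.sum_congr rfl fun k _ => ?_
    rw [Finset.sum_ite_eq]
  rw [Finset.sum_congr rfl h1, Finset.sum_comm]
  have h2 : ∀ k ∈ Q, ∑ g ∈ F, ∑ i ∈ Q, (if g k = i then 1 else 0) = Q.card * T := by
    intro k _
    rw [Finset.sum_comm]
    rw [Finset.sum_congr rfl fun i _ => by rw [← Finset.card_filter, hT k i]]
    rw [Finset.sum_const, smul_eq_mul]
  rw [Finset.sum_congr rfl h2, Finset.sum_const, smul_eq_mul, mul_assoc]

theorem count_two (F : Finset (Perm α)) (U : ℕ)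
    (hU : ∀ k l i j : α, k ≠ l → i ≠ j → (F.filter fun g => g k = i ∧ g l = j).card = U)
    (S : Finset α) :
    ∑ g ∈ F, (S.offDiag.filter fun p => g p.1 ∈ S ∧ g p.2 ∈ S).card =
      S.offDiag.card * S.offDiag.card * U := by
  classical
  have h1 : ∀ g ∈ F, (S.offDiag.filter fun p => g p.1 ∈ S ∧ g p.2 ∈ S).card =
      ∑ p ∈ S.offDiag, ∑ q ∈ S.offDiag, if g p.1 = q.1 ∧ g p.2 = q.2 then 1 else 0 := by
    intro g _
    rw [Finset.card_filter]
    refine Finset.sum_congr rfl fun p hp => ?_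
    rw [Finset.mem_offDiag] at hp
    have h2 : ∀ q : α × α, (g p.1 = q.1 ∧ g p.2 = q.2) ↔ (g p.1, g p.2) = q := by
      intro q
      rw [Prod.ext_iff]
    simp only [h2]
    rw [Finset.sum_ite_eq]
    simp only [Finset.mem_offDiag]
    congr 1
    apply propext
    constructor
    · rintro ⟨h3, h4⟩
      exact ⟨h3, h4, fun h => hp.2.2 (g.injective h)⟩
    · rintro ⟨h3, h4, -⟩
      exact ⟨h3, h4⟩
  rw [Finset.sum_congr rfl h1, Finset.sum_comm]
  have h2 : ∀ p ∈ S.offDiag, ∑ g ∈ F, ∑ q ∈ S.offDiag,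
      (if g p.1 = q.1 ∧ g p.2 = q.2 then 1 else 0) = S.offDiag.card * U := by
    intro p hp
    rw [Finset.mem_offDiag] at hp
    rw [Finset.sum_comm]
    rw [Finset.sum_congr rfl fun q hq => by
      rw [← Finset.card_filter, hU p.1 p.2 q.1 q.2 hp.2.2 (Finset.mem_offDiag.1 hq).2.2]]
    rw [Finset.sum_const, smul_eq_mul]
  rw [Finset.sum_congr rfl h2, Finset.sum_const, smul_eq_mul, mul_assoc]

end count

theorem exists_meet {n : ℕ} (P : Subgroup (Perm (Fin n)))
    (h2 : ∀ k l k' l' : Fin n, k ≠ l → k' ≠ l' → ∃ g ∈ P, g k = k' ∧ g l = l')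
    (Q S : Finset (Fin n)) (hQS : Q ⊆ S) (hQ : 2 ≤ Q.card) (hS : S.card ^ 4 + 4 < n) :
    ∃ g ∈ P, ∃ k ∈ Q, g k ∈ Q ∧ ∀ l ∈ S, g l ∈ S → l = k := by
  classical
  set F : Finset (Perm (Fin n)) := Finset.univ.filter fun g => g ∈ P with hF
  have hFP : ∀ g, g ∈ F ↔ g ∈ P := fun g => by simp [hF]
  have hn : 2 ≤ n := by omega
  have hnt : Nontrivial (Fin n) := Fin.nontrivial_iff_two_le.2 hn
  -- transitivity
  have h1 : ∀ k k' : Fin n, ∃ g ∈ P, g k = k' := by
    intro k k'
    obtain ⟨l, hl⟩ := exists_ne k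
    obtain ⟨l', hl'⟩ := exists_ne k'
    obtain ⟨g, hg, h, -⟩ := h2 k l k' l' hl.symm hl'.symm
    exact ⟨g, hg, h⟩
  obtain ⟨T, hT⟩ : ∃ T : ℕ, ∀ k i : Fin n, (F.filter fun g => g k = i).card = T := by
    have k₀ : Fin n := ⟨0, by omega⟩
    refine ⟨(F.filter fun g => g k₀ = k₀).card, fun k i => ?_⟩
    obtain ⟨a, ha, ha'⟩ := h1 i k₀
    obtain ⟨b, hb, hb'⟩ := h1 k₀ k
    refine Finset.card_bij (fun g _ => a * g * b) ?_ ?_ ?_
    · intro g hg
      rw [Finset.mem_filter, hFP] at hg ⊢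
      refine ⟨P.mul_mem (P.mul_mem ha hg.1) hb, ?_⟩
      rw [Perm.mul_apply, Perm.mul_apply, hb', hg.2, ha']
    · intro g _ g' _ h
      simpa using h
    · intro g hg
      rw [Finset.mem_filter, hFP] at hg
      refine ⟨a⁻¹ * g * b⁻¹, ?_, by group⟩
      rw [Finset.mem_filter, hFP]
      refine ⟨P.mul_mem (P.mul_mem (P.inv_mem ha) hg.1) (P.inv_mem hb), ?_⟩
      have e1 : b⁻¹ k = k₀ := by rw [Perm.inv_eq_iff_eq, hb']
      rw [Perm.mul_apply, Perm.mul_apply, e1, hg.2, Perm.inv_eq_iff_eq, ha']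
  obtain ⟨U, hU⟩ : ∃ U : ℕ, ∀ k l i j : Fin n, k ≠ l → i ≠ j →
      (F.filter fun g => g k = i ∧ g l = j).card = U := by
    have k₀ : Fin n := ⟨0, by omega⟩
    obtain ⟨l₀, hl₀⟩ := exists_ne k₀
    refine ⟨(F.filter fun g => g k₀ = k₀ ∧ g l₀ = l₀).card, fun k l i j hkl hij => ?_⟩
    obtain ⟨a, ha, ha', ha2⟩ := h2 i j k₀ l₀ hij hl₀.symm
    obtain ⟨b, hb, hb', hb2⟩ := h2 k₀ l₀ k l hl₀.symm hkl
    refine Finset.card_bij (fun g _ => a * g * b) ?_ ?_ ?_
    · intro g hg
      rw [Finset.mem_filter, hFP] at hg ⊢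
      refine ⟨P.mul_mem (P.mul_mem ha hg.1) hb, ?_, ?_⟩
      · rw [Perm.mul_apply, Perm.mul_apply, hb', hg.2.1, ha']
      · rw [Perm.mul_apply, Perm.mul_apply, hb2, hg.2.2, ha2]
    · intro g _ g' _ h
      simpa using h
    · intro g hg
      rw [Finset.mem_filter, hFP] at hg
      refine ⟨a⁻¹ * g * b⁻¹, ?_, by group⟩
      rw [Finset.mem_filter, hFP]
      have e1 : b⁻¹ k = k₀ := by rw [Perm.inv_eq_iff_eq, hb']
      have e2 : b⁻¹ l = l₀ := by rw [Perm.inv_eq_iff_eq, hb2]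
      refine ⟨P.mul_mem (P.mul_mem (P.inv_mem ha) hg.1) (P.inv_mem hb), ?_, ?_⟩
      · rw [Perm.mul_apply, Perm.mul_apply, e1, hg.2.1, Perm.inv_eq_iff_eq, ha']
      · rw [Perm.mul_apply, Perm.mul_apply, e2, hg.2.2, Perm.inv_eq_iff_eq, ha2]
  -- total counts
  have hFpos : 0 < F.card := Finset.card_pos.2 ⟨1, (hFP 1).2 P.one_mem⟩
  have e1 : n * T = F.card := by
    have := count_one F T hT Finset.univ
    simp only [Finset.mem_univ, Finset.filter_true, Finset.card_univ, Fintype.card_fin,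
      Finset.sum_const, smul_eq_mul] at this
    have hn0 : 0 < n := by omega
    have : n * (n * T) = n * F.card := by linarith
    exact Nat.eq_of_mul_eq_mul_left hn0 this
  have e2 : (n * n - n) * U = F.card := by
    have := count_two F U hU Finset.univ
    simp only [Finset.mem_univ, and_self, Finset.filter_true, Finset.offDiag_card,
      Finset.card_univ, Fintype.card_fin, Finset.sum_const, smul_eq_mul] at this
    have hn0 : 0 < n * n - n := by
      have : n * 1 < n * n := Nat.mul_lt_mul_of_pos_left (by omega) (by omega)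
      omega
    have : (n * n - n) * ((n * n - n) * U) = (n * n - n) * F.card := by linarith
    exact Nat.eq_of_mul_eq_mul_left hn0 this
  have s1 := count_one F T hT Q
  have s2 := count_two F U hU S
  obtain ⟨g, hg, hlt⟩ : ∃ g ∈ F, (S.offDiag.filter fun p => g p.1 ∈ S ∧ g p.2 ∈ S).card <
      (Q.filter fun k => g k ∈ Q).card := by
    by_contra hcon
    push Not at hcon
    have h3 := Finset.sum_le_sum hcon
    rw [s1, s2, Finset.offDiag_card] at h3
    set c := S.card with hc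
    have h4 : c * c - c ≤ c * c := Nat.sub_le _ _
    have h5 : (c * c - c) * (c * c - c) ≤ c ^ 4 := by
      calc (c * c - c) * (c * c - c) ≤ (c * c) * (c * c) := Nat.mul_le_mul h4 h4
        _ = c ^ 4 := by ring
    have h6 : Q.card * Q.card * T ≤ c ^ 4 * U := h3.trans (Nat.mul_le_mul_right _ h5)
    have h7 : 4 * T ≤ Q.card * Q.card * T := Nat.mul_le_mul_right _ (by nlinarith)
    have h8 : T = (n - 1) * U := by
      have hn0 : 0 < n := by omega
      apply Nat.eq_of_mul_eq_mul_left hn0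
      rw [e1, ← e2, ← mul_assoc, Nat.mul_sub, mul_one]
    have hUpos : 0 < U := by
      rcases Nat.eq_zero_or_pos U with h | h
      · rw [h, mul_zero] at e2
        omega
      · exact h
    rw [h8] at h7 h6
    have h9 : 4 * (n - 1) * U ≤ c ^ 4 * U := by
      calc 4 * (n - 1) * U = 4 * ((n - 1) * U) := by ring
        _ ≤ _ := h7.trans h6
    have h10 := Nat.le_of_mul_le_mul_right h9 hUpos
    omega
  set t : Finset (Fin n) := S.filter fun k => g k ∈ S with ht
  have ht1 : (Q.filter fun k => g k ∈ Q) ⊆ t := by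
    intro k hk
    rw [Finset.mem_filter] at hk ⊢
    exact ⟨hQS hk.1, hQS hk.2⟩
  have ht2 : (S.offDiag.filter fun p => g p.1 ∈ S ∧ g p.2 ∈ S) = t.offDiag := by
    ext p
    simp only [Finset.mem_filter, Finset.mem_offDiag, ht]
    tauto
  rw [ht2, Finset.offDiag_card] at hlt
  have ht3 := Finset.card_le_card ht1
  have ht4 : t.card ≤ 1 := by
    by_contra hcon
    have h3 : t.card * 2 ≤ t.card * t.card := Nat.mul_le_mul_left _ (by omega)
    omega
  have hpos : 0 < (Q.filter fun k => g k ∈ Q).card := by omega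
  obtain ⟨k, hk⟩ := Finset.card_pos.1 hpos
  have hk' := ht1 hk
  rw [Finset.mem_filter] at hk
  refine ⟨g, (hFP g).1 hg, k, hk.1, hk.2, fun l hl hgl => ?_⟩
  exact Finset.card_le_one.1 ht4 l (Finset.mem_filter.2 ⟨hl, hgl⟩) k hk'


/-! ### Labelled three-cycles -/

theorem ex_notMem (A : Finset (Fin n)) (h : A.card < n) : ∃ t, t ∉ A := by
  have h1 : A.card < (Finset.univ : Finset (Fin n)).card := by
    rwa [Finset.card_univ, Fintype.card_fin]
  obtain ⟨r, -, hr⟩ := Finset.exists_mem_notMem_of_card_lt_card h1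
  exact ⟨r, hr⟩

theorem conj_left (γ c : Wr G n) (i : Fin n) : (γ * c * γ⁻¹).left i =
    γ.left i * c.left (γ.right⁻¹ i) * (γ.left (γ.right (c.right⁻¹ (γ.right⁻¹ i))))⁻¹ := by
  rw [wr_mul_left, wr_mul_left, wr_inv_left]
  simp [wr_mul_right, SemidirectProduct.inv_right, mul_inv_rev, Perm.mul_apply]

theorem conj_right (γ c : Wr G n) (i : Fin n) : (γ * c * γ⁻¹).right i =
    γ.right (c.right (γ.right⁻¹ i)) := by
  simp [wr_mul_right, SemidirectProduct.inv_right, Perm.mul_apply]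

theorem isT_conj {c : Wr G n} {k l r : Fin n} (h : IsT c k l r) (γ : Wr G n) :
    IsT (γ * c * γ⁻¹) (γ.right k) (γ.right l) (γ.right r) := by
  have e1 : c.right⁻¹ l = k := by rw [Perm.inv_eq_iff_eq, h.hk]
  have e2 : c.right⁻¹ r = l := by rw [Perm.inv_eq_iff_eq, h.hl]
  have e3 : c.right⁻¹ k = r := by rw [Perm.inv_eq_iff_eq, h.hr]
  refine ⟨?_, ?_, ?_, ?_, ?_⟩
  · rw [conj_right, ia, h.hk]
  · rw [conj_right, ia, h.hl]
  · rw [conj_right, ia, h.hr]
  · intro i h1 h2 h3
    have h4 : Fx c (γ.right⁻¹ i) := by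
      apply h.hfix
      · intro h5; rw [Perm.inv_eq_iff_eq] at h5; exact h1 h5
      · intro h5; rw [Perm.inv_eq_iff_eq] at h5; exact h2 h5
      · intro h5; rw [Perm.inv_eq_iff_eq] at h5; exact h3 h5
    refine ⟨?_, ?_⟩
    · rw [conj_right, h4.1, ai]
    · rw [conj_left, h4.2, h4.inv_right, ai]
      simp
  · rw [conj_left, conj_left, conj_left, ia, ia, ia, e1, e2, e3]
    have := h.hprod
    calc _ = γ.left (γ.right k) * (c.left k * c.left r * c.left l) *
        (γ.left (γ.right k))⁻¹ := by group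
      _ = 1 := by rw [this]; group

section main

variable (H : Subgroup (Wr G n))

theorem tri (hn : 9 ≤ n) (h2 : ∀ k l k' l' : Fin n, k ≠ l → k' ≠ l' → ∀ g h : G, ∃ w ∈ H,
      w.right k = k' ∧ w.right l = l' ∧ w.left k' = g ∧ w.left l' = h)
    (hA : ∀ σ : Perm (Fin n), Perm.sign σ = 1 → ∃ x ∈ H, x.right = σ) (k l r k' l' r' : Fin n)
    (hkl : k ≠ l) (hkr : k ≠ r) (hlr : l ≠ r) (hkl' : k' ≠ l') (hkr' : k' ≠ r') (hlr' : l' ≠ r') :
    ∃ γ ∈ H, γ.right k = k' ∧ γ.right l = l' ∧ γ.right r = r' := by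
  classical
  obtain ⟨g, hg, h3, h4, -, -⟩ := h2 k l k' l' hkl hkl' 1 1
  by_cases hr : g.right r = r'
  · exact ⟨g, hg, h3, h4, hr⟩
  obtain ⟨t, ht⟩ := ex_notMem ({k', l', r', g.right r} : Finset (Fin n))
    (lt_of_le_of_lt Finset.card_le_four (by omega))
  obtain ⟨t', ht'⟩ := ex_notMem ({k', l', r', g.right r, t} : Finset (Fin n))
    (lt_of_le_of_lt Finset.card_le_five (by omega))
  simp only [Finset.mem_insert, Finset.mem_singleton, not_or] at ht ht'
  have hgk : g.right r ≠ k' := by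
    intro h; rw [← h3] at h; exact hkr (g.right.injective h).symm
  have hgl : g.right r ≠ l' := by
    intro h; rw [← h4] at h; exact hlr (g.right.injective h).symm
  obtain ⟨x, hx, hxσ⟩ := hA (swap (g.right r) r' * swap t t') (by
    rw [map_mul, Perm.sign_swap hr, Perm.sign_swap (Ne.symm ht'.2.2.2.2)]; decide)
  refine ⟨x * g, H.mul_mem hx hg, ?_, ?_, ?_⟩
  · rw [wr_mul_right, Perm.mul_apply, h3, hxσ, Perm.mul_apply,
      swap_apply_of_ne_of_ne (Ne.symm ht.1) (Ne.symm ht'.1), swap_apply_of_ne_of_ne hgk.symm hkr']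
  · rw [wr_mul_right, Perm.mul_apply, h4, hxσ, Perm.mul_apply,
      swap_apply_of_ne_of_ne (Ne.symm ht.2.1) (Ne.symm ht'.2.1),
      swap_apply_of_ne_of_ne hgl.symm hlr']
  · rw [wr_mul_right, Perm.mul_apply, hxσ, Perm.mul_apply,
      swap_apply_of_ne_of_ne (Ne.symm ht.2.2.2) (Ne.symm ht'.2.2.2.1), swap_apply_left]

/-- The base part of `H`. -/
def Bs : Subgroup (Fin n → G) := H.comap SemidirectProduct.inl

theorem mem_Bs {f : Fin n → G} : f ∈ Bs H ↔ (SemidirectProduct.inl f : Wr G n) ∈ H := Iff.rfl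

theorem left_mem_Bs {e : Wr G n} (he : e ∈ H) (h : e.right = 1) : e.left ∈ Bs H := by
  rw [mem_Bs]
  have h5 := SemidirectProduct.inl_left_mul_inr_right e
  rw [h, map_one, mul_one] at h5
  rwa [h5]

theorem elem (hn : 9 ≤ n) (h2 : ∀ k l k' l' : Fin n, k ≠ l → k' ≠ l' → ∀ g h : G, ∃ w ∈ H,
      w.right k = k' ∧ w.right l = l' ∧ w.left k' = g ∧ w.left l' = h)
    (hT : ∀ k l r : Fin n, k ≠ l → k ≠ r → l ≠ r → ∃ c ∈ H, IsT c k l r) (k l r : Fin n)
    (hkl : k ≠ l) (hkr : k ≠ r) (hlr : l ≠ r) :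
    ∃ a b : G, ∀ u : G, ∃ f ∈ Bs H, ∃ w : G, f l = a * u⁻¹ * a⁻¹ ∧ f r = w ∧
      f k = u * b * w⁻¹ * b⁻¹ ∧ ∀ i, i ≠ k → i ≠ l → i ≠ r → f i = 1 := by
  classical
  obtain ⟨c, hc, hcT⟩ := hT k l r hkl hkr hlr
  refine ⟨c.left l, c.left k, fun u => ?_⟩
  -- the conjugating element
  obtain ⟨γ, hγ, g1, g2, g3, g4, g5⟩ : ∃ γ ∈ H, γ.right k = k ∧ γ.right l = l ∧ γ.right r = r ∧
      γ.left k = u ∧ γ.left l = 1 := by
    obtain ⟨g, hg, h3, h4, h5, h6⟩ := h2 k l k l hkl hkl u 1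
    by_cases hr : g.right r = r
    · exact ⟨g, hg, h3, h4, hr, h5, h6⟩
    have hgk : g.right r ≠ k := by
      intro h; rw [← h3] at h; exact hkr (g.right.injective (by rw [h, h3])).symm
    have hgl : g.right r ≠ l := by
      intro h; rw [← h4] at h; exact hlr (g.right.injective (by rw [h, h4])).symm
    obtain ⟨t, ht⟩ := ex_notMem ({k, l, r, g.right r} : Finset (Fin n))
      (lt_of_le_of_lt Finset.card_le_four (by omega))
    simp only [Finset.mem_insert, Finset.mem_singleton, not_or] at ht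
    obtain ⟨d, hd, hdT⟩ := hT (g.right r) r t hr (Ne.symm ht.2.2.2) (Ne.symm ht.2.2.1)
    have dk := hdT.hfix k hgk.symm hkr (Ne.symm ht.1)
    have dl := hdT.hfix l hgl.symm hlr (Ne.symm ht.2.1)
    refine ⟨d * g, H.mul_mem hd hg, ?_, ?_, ?_, ?_, ?_⟩
    · rw [wr_mul_right, Perm.mul_apply, h3, dk.1]
    · rw [wr_mul_right, Perm.mul_apply, h4, dl.1]
    · rw [wr_mul_right, Perm.mul_apply, hdT.hk]
    · rw [wr_mul_left, dk.inv_right, dk.2, h5, one_mul]
    · rw [wr_mul_left, dl.inv_right, dl.2, h6, one_mul]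
  have e1 : c.right⁻¹ l = k := by rw [Perm.inv_eq_iff_eq, hcT.hk]
  have e2 : c.right⁻¹ r = l := by rw [Perm.inv_eq_iff_eq, hcT.hl]
  have e3 : c.right⁻¹ k = r := by rw [Perm.inv_eq_iff_eq, hcT.hr]
  have i1 : γ.right⁻¹ k = k := by rw [Perm.inv_eq_iff_eq, g1]
  have i2 : γ.right⁻¹ l = l := by rw [Perm.inv_eq_iff_eq, g2]
  have i3 : γ.right⁻¹ r = r := by rw [Perm.inv_eq_iff_eq, g3]
  set e : Wr G n := γ * c * γ⁻¹ * c⁻¹ with he
  have heH : e ∈ H := H.mul_mem (H.mul_mem (H.mul_mem hγ hc) (H.inv_mem hγ)) (H.inv_mem hc)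
  have hoth : ∀ i, i ≠ k → i ≠ l → i ≠ r → Fx c (γ.right⁻¹ i) := by
    intro i h1 h3 h4
    apply hcT.hfix
    · intro h5; rw [Perm.inv_eq_iff_eq, g1] at h5; exact h1 h5
    · intro h5; rw [Perm.inv_eq_iff_eq, g2] at h5; exact h3 h5
    · intro h5; rw [Perm.inv_eq_iff_eq, g3] at h5; exact h4 h5
  have her : e.right = 1 := by
    ext1 i
    rw [he, comm_right, Perm.one_apply]
    by_cases h1 : i = k
    · subst h1; rw [e3, i3, hcT.hr, g1]
    by_cases h3 : i = l
    · subst h3; rw [e1, i1, hcT.hk, g2]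
    by_cases h4 : i = r
    · subst h4; rw [e2, i2, hcT.hl, g3]
    rw [(hcT.hfix i h1 h3 h4).inv_right, (hoth i h1 h3 h4).1, ai]
  refine ⟨e.left, left_mem_Bs H heH her, γ.left r, ?_, ?_, ?_, ?_⟩
  · rw [he, comm_left, i2, e1, g1, hcT.hk, g4, g5]
    group
  · rw [he, comm_left, i3, e2, g2, hcT.hl, g5]
    group
  · rw [he, comm_left, i1, e3, g3, hcT.hr, g4]
  · intro i h1 h3 h4
    rw [he, comm_left, (hoth i h1 h3 h4).2, (hoth i h1 h3 h4).inv_right, ai,
      (hcT.hfix i h1 h3 h4).1, (hcT.hfix i h1 h3 h4).2]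
    simp

/-- Commutators in one coordinate. -/
theorem single_comm (hn : 9 ≤ n)
    (h2 : ∀ k l k' l' : Fin n, k ≠ l → k' ≠ l' → ∀ g h : G, ∃ w ∈ H,
      w.right k = k' ∧ w.right l = l' ∧ w.left k' = g ∧ w.left l' = h)
    (hT : ∀ k l r : Fin n, k ≠ l → k ≠ r → l ≠ r → ∃ c ∈ H, IsT c k l r) (l : Fin n) (c : G)
    (hc : c ∈ commutator G) : Pi.mulSingle l c ∈ Bs H := by
  classical
  obtain ⟨k, hk⟩ := ex_notMem ({l} : Finset (Fin n))
    (lt_of_le_of_lt (Finset.card_singleton _).le (by omega))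
  obtain ⟨r, hr⟩ := ex_notMem ({l, k} : Finset (Fin n))
    (lt_of_le_of_lt Finset.card_le_two (by omega))
  obtain ⟨k', hk'⟩ := ex_notMem ({l, k, r} : Finset (Fin n))
    (lt_of_le_of_lt Finset.card_le_three (by omega))
  obtain ⟨r', hr'⟩ := ex_notMem ({l, k, r, k'} : Finset (Fin n))
    (lt_of_le_of_lt Finset.card_le_four (by omega))
  simp only [Finset.mem_insert, Finset.mem_singleton, not_or] at hk hr hk' hr'
  obtain ⟨a, b, hab⟩ := elem H hn h2 hT k l r hk (Ne.symm hr.2) (Ne.symm hr.1)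
  obtain ⟨a', b', hab'⟩ := elem H hn h2 hT k' l r' hk'.1 (Ne.symm hr'.2.2.2) (Ne.symm hr'.1)
  have hle : commutator G ≤ (Bs H).comap (MonoidHom.mulSingle (fun _ : Fin n => G) l) := by
    rw [commutator_def, Subgroup.commutator_le]
    intro u _ v _
    rw [Subgroup.mem_comap]
    obtain ⟨f, hf, w, f1, f2, f3, f4⟩ := hab (a⁻¹ * u⁻¹ * a)
    obtain ⟨f', hf', w', f1', f2', f3', f4'⟩ := hab' (a'⁻¹ * v⁻¹ * a')
    have e1 : f l = u := by rw [f1]; group
    have e2 : f' l = v := by rw [f1']; group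
    have h1 : MonoidHom.mulSingle (fun _ : Fin n => G) l ⁅u, v⁆ = f * f' * f⁻¹ * f'⁻¹ := by
      funext i
      rw [MonoidHom.mulSingle_apply]
      by_cases hil : i = l
      · subst hil
        rw [Pi.mulSingle_eq_same, commutatorElement_def]
        simp only [Pi.mul_apply, Pi.inv_apply, e1, e2]
      · rw [Pi.mulSingle_eq_of_ne hil]
        simp only [Pi.mul_apply, Pi.inv_apply]
        by_cases h5 : i = k' ∨ i = r'
        · have : f i = 1 := by
            apply f4 i _ hil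
            · rcases h5 with rfl | rfl
              · exact hk'.2.2
              · exact hr'.2.2.1
            · rcases h5 with rfl | rfl
              · exact hk'.2.1
              · exact hr'.2.1
          rw [this]; simp
        · push Not at h5
          rw [f4' i h5.1 hil h5.2]; simp
    rw [h1]
    exact Subgroup.mul_mem _ (Subgroup.mul_mem _ (Subgroup.mul_mem _ hf hf')
      (Subgroup.inv_mem _ hf)) (Subgroup.inv_mem _ hf')
  exact hle hc

theorem modC (hC : ∀ (l : Fin n) (c : G), c ∈ commutator G → Pi.mulSingle l c ∈ Bs H)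
    {f f' : Fin n → G} (hf : f ∈ Bs H)
    (h : ∀ i, Abelianization.of (f i) = Abelianization.of (f' i)) : f' ∈ Bs H := by
  have h1 : f⁻¹ * f' ∈ Bs H := by
    apply Subgroup.pi_mem_of_mulSingle_mem
    intro i
    apply hC
    rw [← Abelianization.ker_of, MonoidHom.mem_ker, Pi.mul_apply, Pi.inv_apply, map_mul, map_inv,
      h i, inv_mul_cancel]
  have h2 := (Bs H).mul_mem hf h1
  rwa [mul_inv_cancel_left] at h2

theorem conjB (hC : ∀ (l : Fin n) (c : G), c ∈ commutator G → Pi.mulSingle l c ∈ Bs H)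
    {f : Fin n → G} (hf : f ∈ Bs H) {γ : Wr G n} (hγ : γ ∈ H) :
    (fun i => f (γ.right⁻¹ i)) ∈ Bs H := by
  rw [mem_Bs] at hf
  have h1 := H.mul_mem (H.mul_mem hγ hf) (H.inv_mem hγ)
  have h2 : (γ * SemidirectProduct.inl f * γ⁻¹).right = 1 := by
    ext1 i
    rw [conj_right]
    simp
  have h3 := left_mem_Bs H h1 h2
  refine modC H hC h3 fun i => ?_
  rw [conj_left]
  simp only [SemidirectProduct.left_inl, SemidirectProduct.right_inl, inv_one, Perm.one_apply, ai,
    map_mul, map_inv]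
  rw [mul_comm, inv_mul_cancel_left]

theorem diag (hn : 9 ≤ n)
    (h2 : ∀ k l k' l' : Fin n, k ≠ l → k' ≠ l' → ∀ g h : G, ∃ w ∈ H,
      w.right k = k' ∧ w.right l = l' ∧ w.left k' = g ∧ w.left l' = h)
    (hA : ∀ σ : Perm (Fin n), Perm.sign σ = 1 → ∃ x ∈ H, x.right = σ)
    (hT : ∀ k l r : Fin n, k ≠ l → k ≠ r → l ≠ r → ∃ c ∈ H, IsT c k l r)
    (hC : ∀ (l : Fin n) (c : G), c ∈ commutator G → Pi.mulSingle l c ∈ Bs H)
    (k l : Fin n) (hkl : k ≠ l) (u : G) :
    Pi.mulSingle k u * Pi.mulSingle l u⁻¹ ∈ Bs H := by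
  classical
  obtain ⟨r, hr⟩ := ex_notMem ({k, l} : Finset (Fin n))
    (lt_of_le_of_lt Finset.card_le_two (by omega))
  obtain ⟨r', hr'⟩ := ex_notMem ({k, l, r} : Finset (Fin n))
    (lt_of_le_of_lt Finset.card_le_three (by omega))
  simp only [Finset.mem_insert, Finset.mem_singleton, not_or] at hr hr'
  have hkr : k ≠ r := Ne.symm hr.1
  have hlr : l ≠ r := Ne.symm hr.2
  have hkr' : k ≠ r' := Ne.symm hr'.1
  have hlr' : l ≠ r' := Ne.symm hr'.2.1
  have hrr' : r ≠ r' := Ne.symm hr'.2.2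
  obtain ⟨a, b, hab⟩ := elem H hn h2 hT k l r hkl hkr hlr
  obtain ⟨f, hf, w, f1, f2, f3, f4⟩ := hab u
  obtain ⟨γ, hγ, g1, g2, g3⟩ := tri H hn h2 hA k l r k l r' hkl hkr hlr hkl hkr' hlr'
  have i1 : γ.right⁻¹ k = k := by rw [Perm.inv_eq_iff_eq, g1]
  have i2 : γ.right⁻¹ l = l := by rw [Perm.inv_eq_iff_eq, g2]
  have i3 : γ.right⁻¹ r' = r := by rw [Perm.inv_eq_iff_eq, g3]
  have e1 := (Bs H).mul_mem hf ((Bs H).inv_mem (conjB H hC hf hγ))
  have e2 : Pi.mulSingle r w * Pi.mulSingle r' w⁻¹ ∈ Bs H := by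
    refine modC H hC e1 fun i => ?_
    simp only [Pi.mul_apply, Pi.inv_apply, map_mul, map_inv]
    have hone : ∀ i, i ≠ k → i ≠ l → i ≠ r' → f (γ.right⁻¹ i) = 1 := by
      intro i h1 h3 h4
      apply f4
      · intro h5; rw [Perm.inv_eq_iff_eq, g1] at h5; exact h1 h5
      · intro h5; rw [Perm.inv_eq_iff_eq, g2] at h5; exact h3 h5
      · intro h5; rw [Perm.inv_eq_iff_eq, g3] at h5; exact h4 h5
    by_cases h1 : i = k
    · subst h1
      rw [i1, Pi.mulSingle_eq_of_ne hkr, Pi.mulSingle_eq_of_ne hkr']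
      simp
    by_cases h3 : i = l
    · subst h3
      rw [i2, Pi.mulSingle_eq_of_ne hlr, Pi.mulSingle_eq_of_ne hlr']
      simp
    by_cases h4 : i = r
    · subst h4
      rw [Pi.mulSingle_eq_same, Pi.mulSingle_eq_of_ne hrr', hone i h1 h3 hrr', f2]
      simp
    by_cases h5 : i = r'
    · subst h5
      rw [Pi.mulSingle_eq_same, Pi.mulSingle_eq_of_ne h4, i3, f4 i h1 h3 h4, f2]
      simp
    rw [Pi.mulSingle_eq_of_ne h4, Pi.mulSingle_eq_of_ne h5, f4 i h1 h3 h4, hone i h1 h3 h5]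
    simp
  obtain ⟨δ, hδ, d1, d2, -, -⟩ := h2 r r' k r hrr' hkr 1 1
  have j1 : δ.right⁻¹ k = r := by rw [Perm.inv_eq_iff_eq, d1]
  have j2 : δ.right⁻¹ r = r' := by rw [Perm.inv_eq_iff_eq, d2]
  have e3 := (Bs H).mul_mem hf (conjB H hC e2 hδ)
  refine modC H hC e3 fun i => ?_
  simp only [Pi.mul_apply, map_mul]
  by_cases h1 : i = k
  · subst h1
    rw [j1, f3, Pi.mulSingle_eq_same, Pi.mulSingle_eq_of_ne hrr', Pi.mulSingle_eq_same,
      Pi.mulSingle_eq_of_ne hkl]
    simp only [map_mul, map_inv, map_one, mul_one]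
    rw [mul_right_comm (Abelianization.of u * Abelianization.of b), inv_mul_cancel_right,
      mul_assoc (Abelianization.of u), mul_inv_cancel, mul_one]
  have hq : ∀ i, i ≠ k → i ≠ r → (Pi.mulSingle r w : Fin n → G) (δ.right⁻¹ i) = 1 ∧
      (Pi.mulSingle r' w⁻¹ : Fin n → G) (δ.right⁻¹ i) = 1 := by
    intro i h1 h4
    constructor
    · apply Pi.mulSingle_eq_of_ne
      intro h5; rw [Perm.inv_eq_iff_eq, d1] at h5; exact h1 h5
    · apply Pi.mulSingle_eq_of_ne
      intro h5; rw [Perm.inv_eq_iff_eq, d2] at h5; exact h4 h5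
  by_cases h3 : i = l
  · subst h3
    rw [(hq i h1 hlr).1, (hq i h1 hlr).2, f1, Pi.mulSingle_eq_same, Pi.mulSingle_eq_of_ne h1]
    simp only [map_mul, map_inv, map_one, mul_one, one_mul]
    rw [mul_comm (Abelianization.of a), mul_inv_cancel_right]
  by_cases h4 : i = r
  · subst h4
    rw [j2, f2, Pi.mulSingle_eq_same, Pi.mulSingle_eq_of_ne hrr'.symm, Pi.mulSingle_eq_of_ne h1,
      Pi.mulSingle_eq_of_ne h3]
    simp
  rw [(hq i h1 h4).1, (hq i h1 h4).2, Pi.mulSingle_eq_of_ne h1,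
    Pi.mulSingle_eq_of_ne h3, f4 i h1 h3 h4]
  simp

theorem base_gen (hn : 9 ≤ n)
    (hcomm : ∀ (l : Fin n) (c : G), c ∈ commutator G → Pi.mulSingle l c ∈ Bs H)
    (hD : ∀ k l : Fin n, k ≠ l → ∀ u : G, Pi.mulSingle k u * Pi.mulSingle l u⁻¹ ∈ Bs H)
    (f : Fin n → G) (hf : ∏ i, Abelianization.of (f i) = 1) : f ∈ Bs H := by
  classical
  have k₀ : Fin n := ⟨0, by omega⟩
  have main : ∀ s : Finset (Fin n), k₀ ∉ s → ∀ f : Fin n → G, (∀ i, i ∉ s → i ≠ k₀ → f i = 1) →
      ∏ i, Abelianization.of (f i) = 1 → f ∈ Bs H := by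
    intro s
    induction s using Finset.induction_on with
    | empty =>
      intro _ f hf hprod
      have h1 : f = Pi.mulSingle k₀ (f k₀) := by
        funext i
        by_cases h : i = k₀
        · subst h; simp
        · rw [hf i (by simp) h, Pi.mulSingle_eq_of_ne h]
      rw [h1]
      apply hcomm
      rw [Finset.prod_eq_single k₀] at hprod
      · rw [← Abelianization.ker_of, MonoidHom.mem_ker]
        exact hprod
      · intro i _ h
        rw [hf i (by simp) h, map_one]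
      · intro h
        exact absurd (Finset.mem_univ _) h
    | insert a s has ih =>
      intro hk₀ f hf hprod
      have hak : a ≠ k₀ := fun h => hk₀ (by rw [h]; exact Finset.mem_insert_self _ _)
      have hk₀s : k₀ ∉ s := fun h => hk₀ (Finset.mem_insert_of_mem h)
      have hmem := hD a k₀ hak (f a)
      have h1 := ih hk₀s (f * (Pi.mulSingle a (f a) * Pi.mulSingle k₀ (f a)⁻¹)⁻¹) (by
        intro i hi hik
        by_cases hia : i = a
        · subst hia
          simp [Pi.mulSingle_apply, hak]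
        · simp [Pi.mulSingle_apply, hia, hik]
          exact hf i (by simp [hia, hi]) hik) (by
        simp only [Pi.mul_apply, Pi.inv_apply, map_mul, map_inv, Finset.prod_mul_distrib, hprod,
          Finset.prod_inv_distrib, one_mul, mul_inv_rev]
        rw [Finset.prod_eq_single k₀ (fun i _ h => by rw [Pi.mulSingle_eq_of_ne h, map_one])
          (fun h => absurd (Finset.mem_univ _) h),
          Finset.prod_eq_single a (fun i _ h => by rw [Pi.mulSingle_eq_of_ne h, map_one])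
          (fun h => absurd (Finset.mem_univ _) h), Pi.mulSingle_eq_same, Pi.mulSingle_eq_same]
        simp)
      have h2 := Subgroup.mul_mem _ h1 hmem
      rwa [inv_mul_cancel_right] at h2
  exact main (Finset.univ.erase k₀) (Finset.notMem_erase _ _) f (fun i hi hik =>
    absurd (Finset.mem_erase.2 ⟨hik, Finset.mem_univ _⟩) hi) hf

end main

/-! ### Three-cycles -/

theorem cyc_eq {σ : Perm (Fin n)} {k l r : Fin n} (hkl : k ≠ l) (hkr : k ≠ r) (hlr : l ≠ r)
    (hk : σ k = l) (hl : σ l = r) (hr : σ r = k) (hf : ∀ i, i ≠ k → i ≠ l → i ≠ r → σ i = i) :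
    σ = swap k r * swap k l := by
  ext1 i
  rw [Perm.mul_apply]
  by_cases h1 : i = k
  · subst h1
    rw [swap_apply_left, swap_apply_of_ne_of_ne hkl.symm hlr, hk]
  by_cases h3 : i = l
  · subst h3
    rw [swap_apply_right, swap_apply_left, hl]
  by_cases h4 : i = r
  · subst h4
    rw [swap_apply_of_ne_of_ne hkr.symm hlr.symm, swap_apply_right, hr]
  rw [swap_apply_of_ne_of_ne h1 h3, swap_apply_of_ne_of_ne h1 h4, hf i h1 h3 h4]

theorem IsT.three {c : Wr G n} {k l r : Fin n} (h : IsT c k l r) (hkl : k ≠ l) (hkr : k ≠ r)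
    (hlr : l ≠ r) : c.right.IsThreeCycle := by
  rw [cyc_eq hkl hkr hlr h.hk h.hl h.hr fun i h1 h3 h4 => (h.hfix i h1 h3 h4).1]
  exact Perm.isThreeCycle_swap_mul_swap_same hkr hkl hlr.symm

theorem three_ex {σ : Perm (Fin n)} (h : σ.IsThreeCycle) : ∃ k l r : Fin n, k ≠ l ∧ k ≠ r ∧
    l ≠ r ∧ σ k = l ∧ σ l = r ∧ σ r = k ∧ ∀ i, i ≠ k → i ≠ l → i ≠ r → σ i = i := by
  classical
  have h3 := h.card_support
  obtain ⟨k, hk⟩ : σ.support.Nonempty := by
    rw [← Finset.card_pos]; omega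
  rw [Perm.mem_support] at hk
  have hcube : σ ^ 3 = 1 := by
    rw [← h.orderOf]; exact pow_orderOf_eq_one σ
  have h4 : σ (σ (σ k)) = k := by
    have := congrArg (fun τ : Perm (Fin n) => τ k) hcube
    simpa [pow_succ] using this
  have h5 : k ≠ σ k := Ne.symm hk
  have h6 : k ≠ σ (σ k) := by
    intro h7
    rw [← h7] at h4
    exact hk h4
  have h7 : σ k ≠ σ (σ k) := fun h8 => h5 (σ.injective h8)
  refine ⟨k, σ k, σ (σ k), h5, h6, h7, rfl, rfl, h4, ?_⟩
  have hsub : ({k, σ k, σ (σ k)} : Finset (Fin n)) ⊆ σ.support := by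
    intro i hi
    simp only [Finset.mem_insert, Finset.mem_singleton] at hi
    rw [Perm.mem_support]
    rcases hi with rfl | rfl | rfl
    · exact hk
    · exact h7.symm
    · rw [h4]; exact h6
  have hcard : ({k, σ k, σ (σ k)} : Finset (Fin n)).card = 3 := by
    rw [Finset.card_eq_three]
    exact ⟨_, _, _, h5, h6, h7, rfl⟩
  have heq := Finset.eq_of_subset_of_card_le hsub (by rw [hcard, h3])
  intro i h8 h9 h10
  by_contra h11
  have : i ∈ σ.support := Perm.mem_support.2 h11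
  rw [← heq] at this
  simp only [Finset.mem_insert, Finset.mem_singleton] at this
  tauto

/-- The product of the labels in the abelianization. -/
def lab : Wr G n →* Abelianization G where
  toFun w := ∏ i, Abelianization.of (w.left i)
  map_one' := by simp
  map_mul' := by
    intro a b
    simp only [wr_mul_left, map_mul, Finset.prod_mul_distrib]
    congr 1
    exact Fintype.prod_equiv a.right⁻¹ _ _ fun i => rfl

theorem lab_apply (w : Wr G n) : lab w = ∏ i, Abelianization.of (w.left i) := rfl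

theorem IsT.lab {c : Wr G n} {k l r : Fin n} (h : IsT c k l r) (hkl : k ≠ l) (hkr : k ≠ r)
    (hlr : l ≠ r) : lab c = 1 := by
  classical
  rw [lab_apply, ← Finset.prod_subset (Finset.subset_univ ({k, r, l} : Finset (Fin n))),
    Finset.prod_insert, Finset.prod_insert, Finset.prod_singleton, ← map_mul, ← map_mul,
    ← mul_assoc, h.hprod, map_one]
  · simp [hlr.symm]
  · simp [hkl, hkr]
  · intro i _ hi
    simp only [Finset.mem_insert, Finset.mem_singleton, not_or] at hi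
    rw [(h.hfix i hi.1 hi.2.2 hi.2.1).2, map_one]

theorem t_grp : Pool.Agent.K3h17.St_grp := by
  classical
  intro G _ _ n s hn hs H h2 x hx hx1 hcard w hw hsg
  set S : Finset (Fin n) := Finset.univ.filter fun i => x.right i ≠ i ∨ x.left i ≠ 1 with hS
  set Q : Finset (Fin n) := x.right.support with hQ
  have hSFx : ∀ i, i ∈ S ↔ ¬ Fx x i := by
    intro i
    rw [hS, Finset.mem_filter, Fx]
    simp only [Finset.mem_univ, true_and]
    tauto
  have hScard : S.card ≤ s := by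
    rw [← Set.ncard_coe_finset, hS]
    simpa using hcard
  have hQS : Q ⊆ S := by
    intro i hi
    rw [hQ, Perm.mem_support] at hi
    rw [hS, Finset.mem_filter]
    exact ⟨Finset.mem_univ _, Or.inl hi⟩
  have hQ2 : 2 ≤ Q.card := Perm.two_le_card_support_of_ne_one hx1
  have hS4 : S.card ^ 4 + 4 < n :=
    lt_of_le_of_lt (Nat.add_le_add_right (Nat.pow_le_pow_left hScard 4) 4) hs
  obtain ⟨g, ⟨γ, hγ, hγg⟩, k, hkQ, hgk, huniq⟩ := exists_meet
    (H.map (SemidirectProduct.rightHom : Wr G n →* Perm (Fin n))) (by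
      intro k l k' l' hkl hkl'
      obtain ⟨w, hw, h3, h4, -, -⟩ := h2 k l k' l' hkl hkl' 1 1
      exact ⟨w.right, ⟨w, hw, rfl⟩, h3, h4⟩) Q S hQS hQ2 hS4
  change γ.right = g at hγg
  subst hγg
  rw [hQ, Perm.mem_support] at hkQ hgk
  set y : Wr G n := γ * x * γ⁻¹ with hy
  have hyH : y ∈ H := H.mul_mem (H.mul_mem hγ hx) (H.inv_mem hγ)
  have hFy : ∀ i, Fx x (γ.right⁻¹ i) → Fx y i := by
    intro i h
    refine ⟨?_, ?_⟩
    · rw [hy, conj_right, h.1, ai]
    · rw [hy, conj_left, h.2, h.inv_right, ai]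
      simp
  have hmeet : ∀ i, ¬ Fx x i → ¬ Fx y i → i = γ.right k := by
    intro i h3 h4
    have h5 : ¬ Fx x (γ.right⁻¹ i) := fun h => h4 (hFy i h)
    have h6 := huniq (γ.right⁻¹ i) ((hSFx _).2 h5) (by rw [ai]; exact (hSFx _).2 h3)
    rw [Perm.inv_eq_iff_eq] at h6
    exact h6
  have hyj : y.right (γ.right k) ≠ γ.right k := by
    rw [hy, conj_right, ia]
    intro h
    exact hkQ (γ.right.injective h)
  have hcT := isT_comm hgk hyj hmeet
  set j := γ.right k with hj
  set c : Wr G n := x * y * x⁻¹ * y⁻¹ with hc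
  have hcH : c ∈ H := H.mul_mem (H.mul_mem (H.mul_mem hx hyH) (H.inv_mem hx)) (H.inv_mem hyH)
  have hd1 : y.right j ≠ x.right j := by
    intro h
    have h3 : ¬ Fx x j := fun h4 => hgk h4.1
    have h4 : ¬ Fx y j := fun h5 => hyj h5.1
    have h5 := not_fx_right h3
    have h6 := not_fx_right h4
    rw [h] at h6
    exact hgk (hmeet _ h5 h6)
  have hd2 : y.right j ≠ j := hyj
  have hd3 : j ≠ x.right j := Ne.symm hgk
  have hA : ∀ σ : Perm (Fin n), Perm.sign σ = 1 → ∃ x ∈ H, x.right = σ := fun σ hσ =>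
    Pool.Agent.Y241.WR.alt_le H h2 ⟨c, hcH, hcT.three hd2 hd1 hd3⟩ σ hσ
  have hT : ∀ k l r : Fin n, k ≠ l → k ≠ r → l ≠ r → ∃ c ∈ H, IsT c k l r := by
    intro k' l' r' h3 h4 h5
    obtain ⟨δ, hδ, d1, d2, d3⟩ := tri H hn h2 hA (y.right j) j (x.right j) k' l' r'
      hd2 hd1 hd3 h3 h4 h5
    have h6 := isT_conj hcT δ
    rw [d1, d2, d3] at h6
    exact ⟨_, H.mul_mem (H.mul_mem hδ hcH) (H.inv_mem hδ), h6⟩
  have hC := single_comm H hn h2 hT
  have hD := diag H hn h2 hA hT hC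
  have hB := base_gen H hn hC hD
  -- the permutations
  have hL : alternatingGroup (Fin n) ≤
      (H ⊓ (lab : Wr G n →* Abelianization G).ker).map
        (SemidirectProduct.rightHom : Wr G n →* Perm (Fin n)) := by
    rw [← Perm.closure_three_cycles_eq_alternating, Subgroup.closure_le]
    intro σ hσ
    obtain ⟨k', l', r', h3, h4, h5, h6, h7, h8, h9⟩ := three_ex hσ
    obtain ⟨c', hc', hcT'⟩ := hT k' l' r' h3 h4 h5
    refine ⟨c', ⟨hc', hcT'.lab h3 h4 h5⟩, ?_⟩
    change c'.right = σ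
    rw [cyc_eq h3 h4 h5 hcT'.hk hcT'.hl hcT'.hr fun i a1 a2 a3 => (hcT'.hfix i a1 a2 a3).1,
      cyc_eq h3 h4 h5 h6 h7 h8 h9]
  obtain ⟨h, ⟨hH, hlab⟩, hr⟩ := hL (Perm.mem_alternatingGroup.2 hsg)
  change h.right = w.right at hr
  have hwh : w * h⁻¹ ∈ H := by
    have h3 : (w * h⁻¹).right = 1 := by
      rw [wr_mul_right, SemidirectProduct.inv_right, hr, mul_inv_cancel]
    have h4 : (w * h⁻¹).left ∈ Bs H := by
      apply hB
      have h5 : lab (w * h⁻¹) = 1 := by
        rw [map_mul, map_inv, MonoidHom.mem_ker.1 hlab, inv_one, mul_one]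
        exact hw
      exact h5
    have h5 := SemidirectProduct.inl_left_mul_inr_right (w * h⁻¹)
    rw [h3, map_one, mul_one] at h5
    rw [← h5]
    exact h4
  have h6 := H.mul_mem hwh hH
  rwa [inv_mul_cancel_right] at h6

end Pool.Agent.K3h71.IG
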